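import Pool.Agent.SB81.KW

/-!
Weighted counts of the sets of vertices whose parts in the blocks are cliques of a given graph.
-/

set_option autoImplicit false

namespace Pool.Agent.SB81

open Finset Pool.Agent.H72.Karp

variable {n : ℕ}

theorem sum_le_sum_inj {α β : Type*} (s : Finset α) (t : Finset β) (i : α → β) (f : α → ℝ)
    (g : β → ℝ) (hi : ∀ a ∈ s, i a ∈ t) (hinj : ∀ a ∈ s, ∀ b ∈ s, i a = i b → a = b)
    (hfg : ∀ a ∈ s, f a ≤ g (i a)) (hg : ∀ b ∈ t, 0 ≤ g b) : ∑ a ∈ s, f a ≤ ∑ b ∈ t, g b := by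
  classical
  calc ∑ a ∈ s, f a ≤ ∑ a ∈ s, g (i a) := sum_le_sum hfg
    _ = ∑ b ∈ s.image i, g b := (sum_image hinj).symm
    _ ≤ ∑ b ∈ t, g b := by
        refine sum_le_sum_of_subset_of_nonneg ?_ fun b hb _ => hg b hb
        intro b hb
        obtain ⟨a, ha, rfl⟩ := mem_image.1 hb
        exact hi a ha

/-- the part of `S` in the block `j` -/
def part (f : Fin n → ℕ) (S : Finset (Fin n)) (j : ℕ) : Finset (Fin n) := S.filter (fun u => f u = j)

theorem mem_part {f : Fin n → ℕ} {S : Finset (Fin n)} {j : ℕ} {u : Fin n} :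
    u ∈ part f S j ↔ u ∈ S ∧ f u = j := mem_filter

theorem part_subset (f : Fin n → ℕ) (S : Finset (Fin n)) (j : ℕ) : part f S j ⊆ S :=
  filter_subset _ _

open Classical in
/-- the neighbours of `v` -/
noncomputable def nbh (K : SimpleGraph (Fin n)) (v : Fin n) : Finset (Fin n) :=
  univ.filter (fun u => K.Adj v u)

theorem mem_nbh {K : SimpleGraph (Fin n)} {u v : Fin n} : u ∈ nbh K v ↔ K.Adj v u := by
  classical
  unfold nbh
  rw [mem_filter]
  simp

/-- the parts of `S` in the blocks are cliques of `K` with at most `x0` vertices, all of degree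
at most `D` -/
def Val (f : Fin n → ℕ) (K : SimpleGraph (Fin n)) (D x0 : ℕ) (S : Finset (Fin n)) : Prop :=
  (∀ u ∈ S, ∀ v ∈ S, u ≠ v → f u = f v → K.Adj u v) ∧ (∀ v ∈ S, (nbh K v).card ≤ D) ∧
    ∀ j, (part f S j).card ≤ x0

/-- the number of pairs of `S` inside the blocks -/
def W (f : Fin n → ℕ) (S : Finset (Fin n)) : ℕ := ∑ j ∈ range n, (part f S j).card.choose 2

open Classical in
/-- the sets `S` with `s` elements as in `Val` -/
noncomputable def famV (f : Fin n → ℕ) (K : SimpleGraph (Fin n)) (D x0 s : ℕ) :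
    Finset (Finset (Fin n)) :=
  (univ.powersetCard s).filter (Val f K D x0)

theorem mem_famV {f : Fin n → ℕ} {K : SimpleGraph (Fin n)} {D x0 s : ℕ} {S : Finset (Fin n)} :
    S ∈ famV f K D x0 s ↔ S.card = s ∧ Val f K D x0 S := by
  classical
  unfold famV
  rw [mem_filter, mem_powersetCard]
  simp

open Classical in
/-- the cliques with `k` elements, all of degree at most `D` -/
noncomputable def Cliq (K : SimpleGraph (Fin n)) (D k : ℕ) : Finset (Finset (Fin n)) :=
  (univ.powersetCard k).filter fun C =>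
    (∀ u ∈ C, ∀ v ∈ C, u ≠ v → K.Adj u v) ∧ ∀ v ∈ C, (nbh K v).card ≤ D

theorem mem_Cliq {K : SimpleGraph (Fin n)} {D k : ℕ} {C : Finset (Fin n)} :
    C ∈ Cliq K D k ↔ C.card = k ∧ (∀ u ∈ C, ∀ v ∈ C, u ≠ v → K.Adj u v) ∧
      ∀ v ∈ C, (nbh K v).card ≤ D := by
  classical
  unfold Cliq
  rw [mem_filter, mem_powersetCard]
  simp

variable {f : Fin n → ℕ} {K : SimpleGraph (Fin n)} {D x0 : ℕ}

theorem part_sdiff (S : Finset (Fin n)) (j i : ℕ) :
    part f (S \ part f S j) i = if i = j then ∅ else part f S i := by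
  ext u
  rw [mem_part, mem_sdiff, mem_part]
  split_ifs with h
  · subst h
    constructor
    · rintro ⟨⟨h1, h2⟩, h3⟩
      exact absurd ⟨h1, h3⟩ h2
    · intro h1
      exact absurd h1 (notMem_empty _)
  · rw [mem_part]
    constructor
    · rintro ⟨⟨h1, h2⟩, h3⟩
      exact ⟨h1, h3⟩
    · rintro ⟨h1, h2⟩
      exact ⟨⟨h1, fun h3 => h (h2.symm.trans h3.2)⟩, h2⟩

theorem W_sdiff (S : Finset (Fin n)) {j : ℕ} (hj : j < n) :
    W f S = W f (S \ part f S j) + (part f S j).card.choose 2 := by
  unfold W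
  rw [← sum_erase_add _ _ (mem_range.2 hj), ← sum_erase_add (range n) _ (mem_range.2 hj)]
  rw [part_sdiff, if_pos rfl]
  have h : ∑ i ∈ (range n).erase j, (part f S i).card.choose 2
      = ∑ i ∈ (range n).erase j, (part f (S \ part f S j) i).card.choose 2 := by
    refine sum_congr rfl fun i hi => ?_
    rw [part_sdiff, if_neg (ne_of_mem_erase hi)]
  rw [h]
  simp

theorem part_mem_Cliq {S : Finset (Fin n)} (hS : Val f K D x0 S) (j : ℕ) :
    part f S j ∈ Cliq K D (part f S j).card := by
  rw [mem_Cliq]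
  refine ⟨rfl, ?_, ?_⟩
  · intro u hu v hv huv
    rw [mem_part] at hu hv
    exact hS.1 u hu.1 v hv.1 huv (hu.2.trans hv.2.symm)
  · intro v hv
    exact hS.2.1 v (mem_part.1 hv).1

theorem Val_sdiff {S : Finset (Fin n)} (hS : Val f K D x0 S) (T : Finset (Fin n)) :
    Val f K D x0 (S \ T) := by
  refine ⟨?_, ?_, ?_⟩
  · intro u hu v hv
    exact hS.1 u (mem_sdiff.1 hu).1 v (mem_sdiff.1 hv).1
  · intro v hv
    exact hS.2.1 v (mem_sdiff.1 hv).1
  · intro j
    refine (card_le_card ?_).trans (hS.2.2 j)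
    intro u hu
    rw [mem_part, mem_sdiff] at hu
    exact mem_part.2 ⟨hu.1.1, hu.2⟩

/-- the weighted number of valid sets -/
noncomputable def Nw (f : Fin n → ℕ) (K : SimpleGraph (Fin n)) (D x0 : ℕ) (b : ℝ) (s : ℕ) : ℝ :=
  ∑ S ∈ famV f K D x0 s, b ^ (W f S)

theorem Nw_nonneg {b : ℝ} (hb : 0 ≤ b) (s : ℕ) : 0 ≤ Nw f K D x0 b s :=
  sum_nonneg fun _ _ => pow_nonneg hb _

/-- the weighted number of cliques -/
noncomputable def Pk (K : SimpleGraph (Fin n)) (D : ℕ) (b : ℝ) (k : ℕ) : ℝ :=
  (Cliq K D k).card * b ^ (k.choose 2)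

theorem Pk_nonneg {b : ℝ} (hb : 0 ≤ b) (k : ℕ) : 0 ≤ Pk K D b k :=
  mul_nonneg (Nat.cast_nonneg _) (pow_nonneg hb _)

open Classical in
/-- one part of a nonempty set -/
noncomputable def cpart (f : Fin n → ℕ) (S : Finset (Fin n)) : Finset (Fin n) :=
  if h : S.Nonempty then part f S (f (S.min' h)) else ∅

theorem Nw_step (hf : ∀ u, f u < n) {b : ℝ} (hb : 0 ≤ b) {s : ℕ} (hs : 1 ≤ s) :
    Nw f K D x0 b s ≤ ∑ k ∈ Icc 1 s, if k ≤ x0 then Pk K D b k * Nw f K D x0 b (s - k) else 0 := by
  classical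
  have hc : ∀ S ∈ famV f K D x0 s, (cpart f S).card ∈ Icc 1 s := by
    intro S hS
    rw [mem_famV] at hS
    have hne : S.Nonempty := by
      rw [← card_pos]
      omega
    unfold cpart
    rw [dif_pos hne, mem_Icc]
    constructor
    · exact card_pos.2 ⟨S.min' hne, mem_part.2 ⟨min'_mem _ _, rfl⟩⟩
    · rw [← hS.1]
      exact card_le_card (part_subset _ _ _)
  unfold Nw
  rw [← sum_fiberwise_of_maps_to hc]
  refine sum_le_sum fun k hk => ?_
  rw [mem_Icc] at hk
  split_ifs with hkx
  · have hprod : Pk K D b k * ∑ S ∈ famV f K D x0 (s - k), b ^ (W f S)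
        = ∑ q ∈ Cliq K D k ×ˢ famV f K D x0 (s - k), b ^ (k.choose 2) * b ^ (W f q.2) := by
      rw [sum_product]
      unfold Pk
      simp only [← mul_sum]
      rw [sum_const, nsmul_eq_mul]
      ring
    rw [hprod]
    refine sum_le_sum_inj _ _ (fun S => (cpart f S, S \ cpart f S)) _ _ ?_ ?_ ?_ ?_
    · intro S hS
      rw [mem_filter, mem_famV] at hS
      obtain ⟨⟨h1, h2⟩, h3⟩ := hS
      have hne : S.Nonempty := by
        rw [← card_pos]
        omega
      have hcp : cpart f S = part f S (f (S.min' hne)) := by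
        unfold cpart
        rw [dif_pos hne]
      rw [mem_product]
      constructor
      · simp only
        rw [← h3, hcp]
        exact part_mem_Cliq h2 _
      · simp only
        rw [mem_famV]
        refine ⟨?_, Val_sdiff h2 _⟩
        rw [card_sdiff_of_subset (by rw [hcp]; exact part_subset _ _ _), h3, h1]
    · intro S hS S' hS' he
      have e1 := (Prod.ext_iff.1 he).1
      have e2 := (Prod.ext_iff.1 he).2
      simp only at e1 e2
      have h1 : cpart f S ⊆ S := by
        unfold cpart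
        split_ifs
        · exact part_subset _ _ _
        · exact empty_subset _
      have h2 : cpart f S' ⊆ S' := by
        unfold cpart
        split_ifs
        · exact part_subset _ _ _
        · exact empty_subset _
      calc S = (S \ cpart f S) ∪ cpart f S := (sdiff_union_of_subset h1).symm
        _ = (S' \ cpart f S') ∪ cpart f S' := by rw [e2, e1]
        _ = S' := sdiff_union_of_subset h2
    · intro S hS
      rw [mem_filter, mem_famV] at hS
      obtain ⟨⟨h1, h2⟩, h3⟩ := hS
      have hne : S.Nonempty := by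
        rw [← card_pos]
        omega
      have hcp : cpart f S = part f S (f (S.min' hne)) := by
        unfold cpart
        rw [dif_pos hne]
      simp only
      rw [← pow_add, ← h3, hcp, W_sdiff S (hf (S.min' hne)), add_comm]
    · intro q _
      positivity
  · rw [sum_eq_zero]
    intro S hS
    exfalso
    rw [mem_filter, mem_famV] at hS
    obtain ⟨⟨h1, h2⟩, h3⟩ := hS
    have hne : S.Nonempty := by
      rw [← card_pos]
      omega
    have hcp : cpart f S = part f S (f (S.min' hne)) := by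
      unfold cpart
      rw [dif_pos hne]
    have := h2.2.2 (f (S.min' hne))
    rw [← hcp, h3] at this
    exact hkx this

theorem Nw_le (hf : ∀ u, f u < n) {b : ℝ} (hb : 0 ≤ b) {Z : ℝ} (hZ : 0 ≤ Z)
    (hP : ∀ k, 1 ≤ k → k ≤ x0 → Pk K D b k ≤ Z ^ k) (s : ℕ) :
    Nw f K D x0 b s ≤ (2 * Z) ^ s := by
  classical
  induction s using Nat.strong_induction_on with
  | _ s ih =>
  rcases Nat.eq_zero_or_pos s with rfl | hs
  · have h1 : famV f K D x0 0 ⊆ {∅} := by
      intro S hS
      rw [mem_famV] at hS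
      rw [mem_singleton]
      exact card_eq_zero.1 hS.1
    unfold Nw
    refine (sum_le_sum_of_subset_of_nonneg h1 fun _ _ _ => pow_nonneg hb _).trans ?_
    rw [sum_singleton]
    have : W f (∅ : Finset (Fin n)) = 0 := by
      unfold W
      refine sum_eq_zero fun j _ => ?_
      have : part f (∅ : Finset (Fin n)) j = ∅ := by
        unfold part
        simp
      rw [this]
      rfl
    rw [this]
    simp
  · refine (Nw_step hf hb hs).trans ?_
    have h1 : ∀ k ∈ Icc 1 s, (if k ≤ x0 then Pk K D b k * Nw f K D x0 b (s - k) else 0)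
        ≤ Z ^ s * 2 ^ (s - k) := by
      intro k hk
      rw [mem_Icc] at hk
      split_ifs with hkx
      · have h2 := ih (s - k) (by omega)
        calc Pk K D b k * Nw f K D x0 b (s - k) ≤ Z ^ k * (2 * Z) ^ (s - k) :=
              mul_le_mul (hP k hk.1 hkx) h2 (Nw_nonneg hb _) (by positivity)
          _ = Z ^ (k + (s - k)) * 2 ^ (s - k) := by
              rw [mul_pow, pow_add]; ring
          _ = Z ^ s * 2 ^ (s - k) := by
              congr 2
              omega
      · positivity
    refine (sum_le_sum h1).trans ?_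
    rw [← mul_sum, mul_pow, mul_comm]
    refine mul_le_mul_of_nonneg_right ?_ (by positivity)
    have h3 : ∑ k ∈ Icc 1 s, (2 : ℝ) ^ (s - k) = ∑ i ∈ range s, (2 : ℝ) ^ i := by
      refine sum_nbij' (fun k => s - k) (fun i => s - i) ?_ ?_ ?_ ?_ ?_
      · intro k hk
        rw [mem_Icc] at hk
        rw [mem_range]
        omega
      · intro i hi
        rw [mem_range] at hi
        rw [mem_Icc]
        omega
      · intro k hk
        rw [mem_Icc] at hk
        omega
      · intro i hi
        rw [mem_range] at hi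
        omega
      · intro k _
        rfl
    rw [h3, geom_sum_eq (by norm_num)]
    norm_num

end Pool.Agent.SB81
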