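import Mathlib.Combinatorics.SimpleGraph.Finite
import Mathlib.Data.Sym.Sym2

/-!
One-pass algorithms with bounded memory which learn a graph pair by pair.
-/

set_option autoImplicit false

namespace Pool.Agent.SB81

/-- A deterministic one-pass algorithm on graphs on `Fin n` with the set `Q` of memory states,
with no bound on computation: `step q e b` is the next state when the pair `e` is presented in
the state `q`, where `b` tells whether `e` is an edge; `colour q` is the colouring which is
returned when the last state is `q`. -/
structure PassAlg (n : ℕ) (Q : Type) where
  start : Q
  step : Q → Sym2 (Fin n) → Bool → Q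
  colour : Q → Fin n → ℕ

variable {n : ℕ} {Q : Type}

open Classical in
/-- The state of `A` after one pass over the pairs of the list `l`, in this order, on the
graph `G`. -/
noncomputable def PassAlg.run (A : PassAlg n Q) (l : List (Sym2 (Fin n)))
    (G : SimpleGraph (Fin n)) : Q :=
  l.foldl (fun q e => A.step q e (decide (e ∈ G.edgeSet))) A.start

/-- `l` is an order of the pairs of vertices: each pair of different vertices occurs exactly
once. -/
def IsOrder (l : List (Sym2 (Fin n))) : Prop := l.Nodup ∧ ∀ e, e ∈ l ↔ ¬ e.IsDiag

/-- `A` returns a proper colouring of every graph, when the pairs come in the order `l`. -/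
def PassAlg.AlwaysProper (A : PassAlg n Q) (l : List (Sym2 (Fin n))) : Prop :=
  ∀ (G : SimpleGraph (Fin n)) (u v : Fin n), G.Adj u v →
    A.colour (A.run l G) u ≠ A.colour (A.run l G) v

/-- The number of colours used on the graph `G`. -/
noncomputable def PassAlg.numColours (A : PassAlg n Q) (l : List (Sym2 (Fin n)))
    (G : SimpleGraph (Fin n)) : ℕ :=
  (Finset.univ.image (A.colour (A.run l G))).card

end Pool.Agent.SB81
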