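import Pool.Agent.SB81.Defs
import Pool.Agent.H85.Online.Prob

/-!
The pairs which are known to be non-adjacent from the state of the memory.
-/

set_option autoImplicit false

namespace Pool.Agent.SB81

open Finset Pool.Agent.H85.Online

variable {n : ℕ} {Q : Type} {p : ℝ}

theorem PassAlg.run_congr (A : PassAlg n Q) {l : List (Sym2 (Fin n))}
    {G H : SimpleGraph (Fin n)} (h : ∀ e ∈ l, (e ∈ G.edgeSet ↔ e ∈ H.edgeSet)) :
    A.run l G = A.run l H := by
  classical
  unfold PassAlg.run
  generalize A.start = q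
  induction l generalizing q with
  | nil => rfl
  | cons a l ih =>
    simp only [List.foldl_cons]
    have h1 : decide (a ∈ G.edgeSet) = decide (a ∈ H.edgeSet) := by
      rw [decide_eq_decide]
      exact h a List.mem_cons_self
    rw [h1]
    exact ih (fun e he => h e (List.mem_cons_of_mem _ he)) _

theorem PassAlg.run_append (A : PassAlg n Q) {l l' : List (Sym2 (Fin n))}
    {G H : SimpleGraph (Fin n)} (h : A.run l G = A.run l H)
    (h' : ∀ e ∈ l', (e ∈ G.edgeSet ↔ e ∈ H.edgeSet)) :
    A.run (l ++ l') G = A.run (l ++ l') H := by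
  classical
  unfold PassAlg.run at h ⊢
  rw [List.foldl_append, List.foldl_append, h]
  generalize List.foldl (fun q e => A.step q e (decide (e ∈ H.edgeSet))) A.start l = q
  clear h
  induction l' generalizing q with
  | nil => rfl
  | cons a l ih =>
    simp only [List.foldl_cons]
    have h1 : decide (a ∈ G.edgeSet) = decide (a ∈ H.edgeSet) := by
      rw [decide_eq_decide]
      exact h' a List.mem_cons_self
    rw [h1]
    exact ih (fun e he => h' e (List.mem_cons_of_mem _ he)) _

/-- the pairs of `l` which are no edges in all graphs which lead to the same state as `G` -/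
def Kn (A : PassAlg n Q) (l : List (Sym2 (Fin n))) (G : SimpleGraph (Fin n)) :
    SimpleGraph (Fin n) where
  Adj u v := u ≠ v ∧ s(u, v) ∈ l ∧ ∀ H : SimpleGraph (Fin n), A.run l H = A.run l G → ¬ H.Adj u v
  symm := ⟨fun u v h => ⟨h.1.symm, by rw [Sym2.eq_swap]; exact h.2.1,
    fun H hH hadj => h.2.2 H hH hadj.symm⟩⟩
  loopless := ⟨fun u h => h.1 rfl⟩

theorem Kn.not_adj {A : PassAlg n Q} {l : List (Sym2 (Fin n))} {G : SimpleGraph (Fin n)}
    {u v : Fin n} (h : (Kn A l G).Adj u v) : ¬ G.Adj u v := h.2.2 G rfl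

theorem Kn_congr {A : PassAlg n Q} {l : List (Sym2 (Fin n))} {G H : SimpleGraph (Fin n)}
    (h : A.run l G = A.run l H) : Kn A l G = Kn A l H := by
  ext u v
  unfold Kn
  simp only [h]

/-- `H` on the pairs of `l`, and `G` elsewhere -/
def mix (l : List (Sym2 (Fin n))) (H G : SimpleGraph (Fin n)) : SimpleGraph (Fin n) where
  Adj u v := (s(u, v) ∈ l ∧ H.Adj u v) ∨ (s(u, v) ∉ l ∧ G.Adj u v)
  symm := ⟨fun u v h => by
    rw [Sym2.eq_swap, H.adj_comm, G.adj_comm]
    exact h⟩
  loopless := ⟨fun u h => by
    rcases h with h | h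
    · exact H.loopless.irrefl _ h.2
    · exact G.loopless.irrefl _ h.2⟩

theorem mem_mix_of_mem {l : List (Sym2 (Fin n))} {H G : SimpleGraph (Fin n)}
    {e : Sym2 (Fin n)} (he : e ∈ l) : e ∈ (mix l H G).edgeSet ↔ e ∈ H.edgeSet := by
  induction e using Sym2.ind with
  | _ x y =>
  rw [SimpleGraph.mem_edgeSet, SimpleGraph.mem_edgeSet]
  constructor
  · rintro (h | h)
    · exact h.2
    · exact absurd he h.1
  · intro h
    exact Or.inl ⟨he, h⟩

theorem mem_mix_of_notMem {l : List (Sym2 (Fin n))} {H G : SimpleGraph (Fin n)}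
    {e : Sym2 (Fin n)} (he : e ∉ l) : e ∈ (mix l H G).edgeSet ↔ e ∈ G.edgeSet := by
  induction e using Sym2.ind with
  | _ x y =>
  rw [SimpleGraph.mem_edgeSet, SimpleGraph.mem_edgeSet]
  constructor
  · rintro (h | h)
    · exact absurd h.1 he
    · exact h.2
  · intro h
    exact Or.inr ⟨he, h⟩

/-- Vertices of one colour are known to be non-adjacent from then on when their pair has been
presented. -/
theorem kn_of_colour {A : PassAlg n Q} {l l' : List (Sym2 (Fin n))} (hnd : (l ++ l').Nodup)
    (hA : A.AlwaysProper (l ++ l')) (G : SimpleGraph (Fin n)) {u v : Fin n} (huv : u ≠ v)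
    (hmem : s(u, v) ∈ l)
    (hc : A.colour (A.run (l ++ l') G) u = A.colour (A.run (l ++ l') G) v) :
    (Kn A l G).Adj u v := by
  refine ⟨huv, hmem, fun H hH hadj => ?_⟩
  have hdis := List.nodup_append.1 hnd
  have h1 : A.run l (mix l H G) = A.run l G := by
    rw [← hH]
    exact A.run_congr fun e he => mem_mix_of_mem he
  have h2 : A.run (l ++ l') (mix l H G) = A.run (l ++ l') G := by
    refine A.run_append h1 fun e he => mem_mix_of_notMem ?_
    intro he'
    exact hdis.2.2 e he' e he rfl
  have h3 := hA (mix l H G) u v (Or.inl ⟨hmem, hadj⟩)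
  rw [h2] at h3
  exact h3 hc

theorem prob_kn (h0 : 0 < p) (h1 : p < 1) [Fintype Q] (A : PassAlg n Q)
    (l : List (Sym2 (Fin n))) (m : ℕ) :
    Prob p (fun G => m ≤ (Kn A l G).edgeSet.ncard) ≤ Fintype.card Q * (1 - p) ^ m := by
  classical
  have hq0 : 0 ≤ 1 - p := by linarith
  have hq1 : 1 - p ≤ 1 := by linarith
  calc Prob p (fun G => m ≤ (Kn A l G).edgeSet.ncard)
      ≤ Prob p (fun G => ∃ q ∈ (univ : Finset Q), A.run l G = q ∧
        m ≤ (Kn A l G).edgeSet.ncard) :=
        Prob_mono h0 h1 fun G hG => ⟨_, mem_univ _, rfl, hG⟩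
    _ ≤ ∑ q ∈ (univ : Finset Q), Prob p (fun G => A.run l G = q ∧
        m ≤ (Kn A l G).edgeSet.ncard) := Prob_exists h0 h1 _ _
    _ ≤ ∑ q ∈ (univ : Finset Q), (1 - p) ^ m := by
        refine sum_le_sum fun q _ => ?_
        by_cases hex : ∃ G0, A.run l G0 = q ∧ m ≤ (Kn A l G0).edgeSet.ncard
        · obtain ⟨G0, hG0, hm⟩ := hex
          set F : Finset (Sym2 (Fin n)) := (Kn A l G0).edgeSet.toFinset with hF
          have hFc : m ≤ F.card := by
            rw [hF, ← Set.ncard_eq_toFinset_card']
            exact hm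
          have h := Prob_and_no_edges (p := p) (fun _ : SimpleGraph (Fin n) => True) F (by
            intro u v huv
            refine ⟨?_, fun G => Iff.rfl⟩
            rw [hF, Set.mem_toFinset, SimpleGraph.mem_edgeSet] at huv
            exact huv.ne)
          rw [Prob_true h1, mul_one] at h
          calc Prob p (fun G => A.run l G = q ∧ m ≤ (Kn A l G).edgeSet.ncard)
              ≤ Prob p (fun G => True ∧ ∀ e ∈ F, e ∉ G.edgeSet) := by
                refine Prob_mono h0 h1 fun G hG => ⟨trivial, fun e he => ?_⟩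
                rw [hF, Set.mem_toFinset] at he
                induction e using Sym2.ind with
                | _ x y =>
                rw [SimpleGraph.mem_edgeSet] at he ⊢
                exact he.2.2 G (hG.1.trans hG0.symm)
            _ = (1 - p) ^ F.card := h
            _ ≤ (1 - p) ^ m := pow_le_pow_of_le_one hq0 hq1 hFc
        · have : Prob p (fun G => A.run l G = q ∧ m ≤ (Kn A l G).edgeSet.ncard) = 0 := by
            unfold Prob
            refine Finset.sum_eq_zero fun G _ => if_neg fun h => hex ⟨G, h⟩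
          rw [this]
          exact pow_nonneg hq0 _
    _ = _ := by rw [sum_const, card_univ, nsmul_eq_mul]

end Pool.Agent.SB81
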