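import Pool.Agent.H72.Karp.Dense

/-!
With high probability every large set of vertices has a vertex whose degree in the set is at least
`p - δ` times the size of the set.
-/

set_option autoImplicit false

namespace Pool.Agent.SB81

open Finset Pool.Agent.H85.Online Pool.Agent.H72.Karp

variable {n : ℕ} {p : ℝ}

/-- every set of at least `m0` vertices has a vertex of relative degree `θ` -/
def PRS (G : SimpleGraph (Fin n)) (θ : ℝ) (m0 : ℕ) : Prop :=
  ∀ B : Finset (Fin n), m0 ≤ B.card → ∃ v ∈ B, θ * B.card ≤ degIn G B v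

theorem prob_sparse_set (h0 : 0 < p) (h1 : p < 1) {δ : ℝ} (hδ : 0 < δ) (hδ1 : δ ≤ 1)
    (T : Finset (Fin n)) (hT : T.Nonempty) :
    Prob p (fun G : SimpleGraph (Fin n) => ∀ v ∈ T, (degIn G T v : ℝ) < (p - δ) * T.card)
      ≤ Real.exp (-(T.card * (((T.card : ℝ) - 1) * δ ^ 2 / 8 - δ / 4))) := by
  classical
  set N : ℝ := ((T.card.choose 2 : ℕ) : ℝ) with hN
  have hN2 : N = (T.card : ℝ) * (T.card - 1) / 2 := by
    rw [hN, Nat.cast_choose_two]
  set s : ℝ := -(δ / 2) with hs
  have hs0 : s < 0 := by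
    rw [hs]; linarith
  have hmk : Prob p (fun G : SimpleGraph (Fin n) => ∀ v ∈ T, (degIn G T v : ℝ) < (p - δ) * T.card)
      ≤ EG p (fun G : SimpleGraph (Fin n) => Real.exp (s * edgesIn T (cfg G)))
        / Real.exp (s * ((p - δ) * (T.card : ℝ) * T.card / 2)) := by
    refine Prob_le_div h0 h1 _ _ (fun G => (Real.exp_pos _).le) (Real.exp_pos _) ?_
    intro G hG
    apply Real.exp_le_exp.2
    have h2 := sum_degIn T (cfg G)
    rw [gr_cfg] at h2
    have h3 : 2 * (edgesIn T (cfg G) : ℝ) ≤ (p - δ) * T.card * T.card := by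
      have h4 : ((∑ v ∈ T, degIn G T v : ℕ) : ℝ) = 2 * (edgesIn T (cfg G) : ℝ) := by
        exact_mod_cast h2
      rw [← h4]
      push_cast
      have : ∑ v ∈ T, (degIn G T v : ℝ) ≤ ∑ v ∈ T, (p - δ) * (T.card : ℝ) :=
        Finset.sum_le_sum fun v hv => (hG v hv).le
      rw [Finset.sum_const, nsmul_eq_mul] at this
      linarith
    nlinarith
  have hE : EG p (fun G : SimpleGraph (Fin n) => Real.exp (s * edgesIn T (cfg G)))
      = EE p (fun ω : Prs (Fin n) → Bool => Real.exp (s * edgesIn T ω)) := by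
    rw [EG_eq]
    exact EE_congr fun ω => by rw [cfg_gr]
  rw [hE] at hmk
  refine hmk.trans ?_
  rw [div_le_iff₀ (Real.exp_pos _), ← Real.exp_add]
  refine (mgf_edgesIn h0 h1 T s).trans (Real.exp_le_exp.2 ?_)
  rw [← hN]
  have hexp : Real.exp s - 1 ≤ s + s ^ 2 := by
    have h2 : |s| ≤ 1 := by
      rw [abs_of_neg hs0, hs]
      linarith
    have h3 := Real.abs_exp_sub_one_sub_id_le h2
    have h4 := (abs_le.1 h3).2
    linarith
  have hN0 : 0 ≤ N := by positivity
  have hc0 : (0 : ℝ) ≤ T.card := Nat.cast_nonneg _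
  have h6 : p * (Real.exp s - 1) ≤ p * (s + s ^ 2) := mul_le_mul_of_nonneg_left hexp h0.le
  have h7 : p * (s + s ^ 2) - s * (p - δ) ≤ -(δ ^ 2 / 4) := by
    have : p * s ^ 2 ≤ 1 * s ^ 2 := mul_le_mul_of_nonneg_right h1.le (sq_nonneg s)
    rw [hs] at *
    nlinarith
  have h8 : N * (p * (Real.exp s - 1)) ≤ N * (s * (p - δ) - δ ^ 2 / 4) :=
    mul_le_mul_of_nonneg_left (by linarith) hN0
  have h9 : s * ((p - δ) * (T.card : ℝ) * T.card / 2)
      = N * (s * (p - δ)) + s * (p - δ) * (T.card / 2) := by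
    rw [hN2]; ring
  have h10 : -(δ * (T.card : ℝ) / 4) ≤ s * (p - δ) * (T.card / 2) := by
    have e1 : s * (p - δ) * ((T.card : ℝ) / 2) = -(δ * (T.card : ℝ) / 4 * (p - δ)) := by
      rw [hs]; ring
    rw [e1]
    have e2 : δ * (T.card : ℝ) / 4 * (p - δ) ≤ δ * (T.card : ℝ) / 4 * 1 :=
      mul_le_mul_of_nonneg_left (by linarith) (by positivity)
    linarith
  have e : -((T.card : ℝ) * (((T.card : ℝ) - 1) * δ ^ 2 / 8 - δ / 4))
      = -(N * (δ ^ 2 / 4)) + δ * (T.card : ℝ) / 4 := by
    rw [hN2]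
    ring
  rw [e, h9]
  linarith

theorem prob_not_PRS (h0 : 0 < p) (h1 : p < 1) {δ : ℝ} (hδ : 0 < δ) (hδ1 : δ ≤ 1)
    (hn : 2 ≤ n) {a : ℝ} (ha : 0 ≤ a) {m0 : ℕ} (hm0 : 1 ≤ m0)
    (hm : (a + 2) * Real.log n ≤ ((m0 : ℝ) - 1) * δ ^ 2 / 8 - δ / 4) :
    Prob p (fun G : SimpleGraph (Fin n) => ¬ PRS G (p - δ) m0) ≤ (n : ℝ) ^ (-a) := by
  classical
  have hn2 : (2 : ℝ) ≤ n := by exact_mod_cast hn
  have hn0 : (0 : ℝ) < n := by linarith
  set x : ℝ := (n : ℝ) ^ (-(a + 2)) with hx
  have hx0 : 0 < x := by positivity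
  have hnx : (n : ℝ) * x = (n : ℝ) ^ (-(a + 1)) := by
    rw [hx, ← Real.rpow_one_add' hn0.le]
    · congr 1; ring
    · intro h; linarith
  have hnx1 : (n : ℝ) * x ≤ 1 := by
    rw [hnx]
    exact Real.rpow_le_one_of_one_le_of_nonpos (by linarith) (by linarith)
  calc Prob p (fun G : SimpleGraph (Fin n) => ¬ PRS G (p - δ) m0)
      ≤ Prob p (fun G : SimpleGraph (Fin n) =>
        ∃ T ∈ (Finset.univ : Finset (Fin n)).powerset.filter (fun T => m0 ≤ T.card),
          ∀ v ∈ T, (degIn G T v : ℝ) < (p - δ) * T.card) := by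
        refine Prob_mono h0 h1 fun G hG => ?_
        unfold PRS at hG
        push Not at hG
        obtain ⟨T, hT, hT'⟩ := hG
        exact ⟨T, Finset.mem_filter.2 ⟨Finset.mem_powerset.2 (Finset.subset_univ _), hT⟩, hT'⟩
    _ ≤ ∑ T ∈ (Finset.univ : Finset (Fin n)).powerset.filter (fun T => m0 ≤ T.card),
          Prob p (fun G : SimpleGraph (Fin n) => ∀ v ∈ T, (degIn G T v : ℝ) < (p - δ) * T.card) :=
        Prob_exists h0 h1 _ _
    _ ≤ ∑ T ∈ (Finset.univ : Finset (Fin n)).powerset.filter (fun T => m0 ≤ T.card),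
          x ^ T.card := by
        refine Finset.sum_le_sum fun T hT => ?_
        have hT' := (Finset.mem_filter.1 hT).2
        have hne : T.Nonempty := by
          rw [← Finset.card_pos]
          omega
        refine (prob_sparse_set h0 h1 hδ hδ1 T hne).trans ?_
        have e1 : x ^ T.card = Real.exp (-(T.card * ((a + 2) * Real.log n))) := by
          rw [hx, Real.rpow_def_of_pos hn0, ← Real.exp_nat_mul]
          congr 1
          ring
        rw [e1]
        apply Real.exp_le_exp.2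
        have hcm : (m0 : ℝ) ≤ T.card := by exact_mod_cast hT'
        have h2 : ((m0 : ℝ) - 1) * δ ^ 2 / 8 ≤ ((T.card : ℝ) - 1) * δ ^ 2 / 8 := by
          have : ((m0 : ℝ) - 1) * δ ^ 2 ≤ ((T.card : ℝ) - 1) * δ ^ 2 :=
            mul_le_mul_of_nonneg_right (by linarith) (sq_nonneg _)
          linarith
        have h3 : (T.card : ℝ) * ((a + 2) * Real.log n)
            ≤ T.card * (((T.card : ℝ) - 1) * δ ^ 2 / 8 - δ / 4) :=
          mul_le_mul_of_nonneg_left (by linarith) (by positivity)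
        linarith
    _ ≤ ∑ T ∈ (Finset.univ : Finset (Fin n)).powerset.erase ∅, x ^ T.card := by
        refine Finset.sum_le_sum_of_subset_of_nonneg ?_ fun _ _ _ => by positivity
        intro T hT
        have hT' := Finset.mem_filter.1 hT
        refine Finset.mem_erase.2 ⟨?_, hT'.1⟩
        rintro rfl
        have := hT'.2
        simp at this
        omega
    _ = (x + 1) ^ n - 1 := by
        have h2 := Finset.sum_pow_mul_eq_add_pow x 1 (Finset.univ : Finset (Fin n))
        simp only [one_pow, mul_one, Finset.card_univ, Fintype.card_fin] at h2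
        rw [← h2, ← Finset.add_sum_erase _ _ (Finset.empty_mem_powerset _)]
        simp
    _ ≤ 2 * (n * x) := by
        have h2 : (x + 1) ^ n ≤ Real.exp (n * x) := by
          rw [Real.exp_nat_mul]
          exact pow_le_pow_left₀ (by positivity) (Real.add_one_le_exp x) n
        have h4 : |(n : ℝ) * x| ≤ 1 := by
          rw [abs_of_pos (by positivity)]
          exact hnx1
        have h5 := (abs_le.1 (Real.abs_exp_sub_one_sub_id_le h4)).2
        have h6 : ((n : ℝ) * x) ^ 2 ≤ n * x := by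
          rw [sq]
          have h' : 0 ≤ (n : ℝ) * x := by positivity
          nlinarith
        linarith
    _ ≤ (n : ℝ) ^ (-a) := by
        rw [hnx]
        have e1 : (n : ℝ) ^ (-a) = n * (n : ℝ) ^ (-(a + 1)) := by
          have e2 : -a = 1 + -(a + 1) := by ring
          rw [e2, Real.rpow_add hn0, Real.rpow_one]
        rw [e1]
        exact mul_le_mul_of_nonneg_right hn2 (by positivity)

end Pool.Agent.SB81
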