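import Pool.Agent.SB81.Two
import Pool.Agent.SB81.Know
import Pool.Agent.SB81.PR

/-!
The probability that a colour class first becomes large at a given level.
-/

set_option autoImplicit false

namespace Pool.Agent.SB81

open Finset Pool.Agent.H72.Karp Pool.Agent.H85.Online

variable {n : ℕ} {Q : Type} {p : ℝ} {f : Fin n → ℕ}

/-- the part of `G` inside the blocks -/
def inn (f : Fin n → ℕ) (G : SimpleGraph (Fin n)) : SimpleGraph (Fin n) where
  Adj u v := f u = f v ∧ G.Adj u v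
  symm := ⟨fun u v h => ⟨h.1.symm, h.2.symm⟩⟩
  loopless := ⟨fun u h => G.loopless.irrefl _ h.2⟩

theorem inn_sup_edge (G : SimpleGraph (Fin n)) {u v : Fin n} (h : f u ≠ f v) :
    inn f (G ⊔ SimpleGraph.edge u v) = inn f G := by
  ext x y
  unfold inn
  simp only [SimpleGraph.sup_adj, SimpleGraph.edge_adj]
  constructor
  · rintro ⟨h1, h2 | ⟨⟨rfl, rfl⟩ | ⟨rfl, rfl⟩, _⟩⟩
    · exact ⟨h1, h2⟩
    · exact absurd h1 h
    · exact absurd h1.symm h
  · rintro ⟨h1, h2⟩
    exact ⟨h1, Or.inl h2⟩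

theorem run_inn (A : PassAlg n Q) {l : List (Sym2 (Fin n))}
    (hl : ∀ u v, s(u, v) ∈ l → f u = f v) (G : SimpleGraph (Fin n)) :
    A.run l G = A.run l (inn f G) := by
  refine A.run_congr fun e he => ?_
  induction e using Sym2.ind with
  | _ x y =>
  rw [SimpleGraph.mem_edgeSet, SimpleGraph.mem_edgeSet]
  exact ⟨fun h => ⟨hl x y he, h⟩, fun h => h.2⟩

theorem Kn_inn (A : PassAlg n Q) {l : List (Sym2 (Fin n))}
    (hl : ∀ u v, s(u, v) ∈ l → f u = f v) (G : SimpleGraph (Fin n)) :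
    Kn A l G = Kn A l (inn f G) := Kn_congr (run_inn A hl G)

theorem Prob_sum_le (h0 : 0 < p) (h1 : p < 1) {ι : Type*} (F : Finset ι) (w : ι → ℝ)
    (A : ι → SimpleGraph (Fin n) → Prop) [∀ i G, Decidable (A i G)] {B : ℝ}
    (h : ∀ G, ∑ i ∈ F, (if A i G then w i else 0) ≤ B) : ∑ i ∈ F, w i * Prob p (A i) ≤ B := by
  classical
  have e1 : ∑ i ∈ F, w i * Prob p (A i)
      = ∑ G : SimpleGraph (Fin n), weight p G * ∑ i ∈ F, (if A i G then w i else 0) := by
    unfold Prob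
    simp only [mul_sum]
    rw [sum_comm]
    refine sum_congr rfl fun G _ => sum_congr rfl fun i _ => ?_
    split_ifs <;> ring
  have e2 : ∑ G : SimpleGraph (Fin n), weight p G = 1 := by
    have := Prob_true (p := p) (n := n) h1
    unfold Prob at this
    simpa using this
  rw [e1]
  calc ∑ G : SimpleGraph (Fin n), weight p G * ∑ i ∈ F, (if A i G then w i else 0)
      ≤ ∑ G : SimpleGraph (Fin n), weight p G * B :=
        sum_le_sum fun G _ => mul_le_mul_of_nonneg_left (h G) (weight_nonneg h0 h1 G)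
    _ = B := by rw [← sum_mul, e2, one_mul]

open Classical in
/-- the pairs of `S` in different blocks -/
noncomputable def cross (f : Fin n → ℕ) (S : Finset (Fin n)) : Finset (Sym2 (Fin n)) :=
  (S.offDiag.filter fun q => f q.1 ≠ f q.2).image fun q => s(q.1, q.2)

theorem mem_cross {S : Finset (Fin n)} {e : Sym2 (Fin n)} :
    e ∈ cross f S ↔ ∃ u v, u ∈ S ∧ v ∈ S ∧ f u ≠ f v ∧ s(u, v) = e := by
  classical
  unfold cross
  rw [mem_image]
  constructor
  · rintro ⟨⟨u, v⟩, h1, h2⟩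
    rw [mem_filter, mem_offDiag] at h1
    exact ⟨u, v, h1.1.1, h1.1.2.1, h1.2, h2⟩
  · rintro ⟨u, v, h1, h2, h3, h4⟩
    refine ⟨(u, v), mem_filter.2 ⟨mem_offDiag.2 ⟨h1, h2, ?_⟩, h3⟩, h4⟩
    exact fun h5 => h3 (congrArg f h5)

theorem choose_le_cross (hf : ∀ u, f u < n) (S : Finset (Fin n)) :
    S.card.choose 2 ≤ (cross f S).card + W f S := by
  classical
  have h1 : (S.offDiag.image fun q => s(q.1, q.2)).card = S.card.choose 2 :=
    Sym2.card_image_offDiag S
  rw [← h1]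
  have h2 : (S.offDiag.image fun q => s(q.1, q.2)) ⊆ cross f S ∪
      (range n).biUnion fun j => ((part f S j).offDiag.image fun q => s(q.1, q.2)) := by
    intro e he
    obtain ⟨⟨u, v⟩, h3, rfl⟩ := mem_image.1 he
    rw [mem_offDiag] at h3
    rw [mem_union]
    by_cases h4 : f u = f v
    · right
      rw [mem_biUnion]
      refine ⟨f u, mem_range.2 (hf u), mem_image.2 ⟨(u, v), ?_, rfl⟩⟩
      rw [mem_offDiag]
      exact ⟨mem_part.2 ⟨h3.1, rfl⟩, mem_part.2 ⟨h3.2.1, h4.symm⟩, h3.2.2⟩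
    · left
      rw [mem_cross]
      exact ⟨u, v, h3.1, h3.2.1, h4, rfl⟩
  refine (card_le_card h2).trans ((card_union_le _ _).trans (Nat.add_le_add_left ?_ _))
  refine card_biUnion_le.trans ?_
  unfold W
  refine sum_le_sum fun j _ => ?_
  exact (Sym2.card_image_offDiag _).le

/-- large sets of vertices inside one block have a vertex of relative degree `θ` -/
def PRB (f : Fin n → ℕ) (H : SimpleGraph (Fin n)) (θ : ℝ) (m0 : ℕ) : Prop :=
  ∀ B : Finset (Fin n), (∀ u ∈ B, ∀ v ∈ B, f u = f v) → m0 ≤ B.card →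
    ∃ v ∈ B, θ * B.card ≤ degIn H B v

theorem PRB_of_PRS {G : SimpleGraph (Fin n)} {θ : ℝ} {m0 : ℕ} (h : PRS G θ m0) :
    PRB f (inn f G) θ m0 := by
  classical
  intro B hB hc
  obtain ⟨v, hv, hd⟩ := h B hc
  refine ⟨v, hv, hd.trans (le_of_eq ?_)⟩
  unfold degIn
  congr 2
  ext u
  rw [mem_filter, mem_filter]
  constructor
  · rintro ⟨h1, h2⟩
    exact ⟨h1, hB v hv u h1, h2⟩
  · rintro ⟨h1, h2⟩
    exact ⟨h1, h2.2⟩

/-- the bound for the weighted number of cliques with `k` elements -/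
noncomputable def Qf (p : ℝ) (n m0 : ℕ) (θ : ℝ) (D k : ℕ) : ℝ :=
  n * ((m0 : ℝ) ^ (k - 1) * Phi (1 - θ) (k - 1) D) * (1 - p)⁻¹ ^ (k.choose 2)

/-- a set with `s` elements becomes large at this level -/
def Ev (A : PassAlg n Q) (l : List (Sym2 (Fin n))) (f : Fin n → ℕ) (D x0 s : ℕ)
    (G : SimpleGraph (Fin n)) : Prop :=
  ∃ S : Finset (Fin n), S.card = s ∧ Val f (Kn A l G) D x0 S ∧ Big f x0 S ∧
    ∀ u ∈ S, ∀ v ∈ S, f u ≠ f v → ¬ G.Adj u v

theorem level_bound (h0 : 0 < p) (h1 : p < 1) (A : PassAlg n Q) {l : List (Sym2 (Fin n))}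
    (hl : ∀ u v, s(u, v) ∈ l → f u = f v) (hf : ∀ u, f u < n) {θ : ℝ} (hθ0 : 0 ≤ θ)
    (hθ1 : θ ≤ 1) {m0 D x0 s : ℕ} (hm0 : 1 ≤ m0) {Z ε : ℝ} (hZ : 0 ≤ Z)
    (hQ : ∀ k, 1 ≤ k → k ≤ x0 → Qf p n m0 θ D k ≤ Z ^ k)
    (hε : ∀ k1 k2, 1 ≤ k1 → k1 ≤ x0 → 1 ≤ k2 → k2 ≤ x0 → x0 < k1 + k2 → k1 + k2 ≤ s →
      (1 - p) ^ (s.choose 2) * (Qf p n m0 θ D k1 * Qf p n m0 θ D k2 *
        (2 * Z) ^ (s - (k1 + k2))) ≤ ε) (hε0 : 0 ≤ ε) :
    Prob p (fun G => Ev A l f D x0 s G ∧ PRB f (inn f G) θ m0) ≤ x0 ^ 2 * ε := by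
  classical
  have hq0 : 0 < 1 - p := by linarith
  have hq1 : 1 - p ≤ 1 := by linarith
  set b : ℝ := (1 - p)⁻¹ with hb
  have hb0 : 0 ≤ b := by positivity
  have hb1 : 1 ≤ b := by
    rw [hb]
    exact (one_le_inv₀ hq0).2 hq1
  have hτ : 0 ≤ 1 - θ := by linarith
  set AS : Finset (Fin n) → SimpleGraph (Fin n) → Prop := fun S G =>
    Val f (Kn A l (inn f G)) D x0 S ∧ Big f x0 S ∧ PRB f (inn f G) θ m0 with hAS
  have hfree : ∀ S : Finset (Fin n), ∀ u v, s(u, v) ∈ cross f S → u ≠ v ∧ Free (AS S) u v := by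
    intro S u v huv
    rw [mem_cross] at huv
    obtain ⟨x, y, hx, hy, hxy, he⟩ := huv
    have huv : f u ≠ f v := by
      rw [Sym2.eq_iff] at he
      rcases he with ⟨rfl, rfl⟩ | ⟨rfl, rfl⟩
      · exact hxy
      · exact hxy.symm
    refine ⟨fun h => huv (by rw [h]), fun G => ?_⟩
    rw [hAS]
    simp only
    rw [inn_sup_edge G huv]
  have hsum : ∀ G : SimpleGraph (Fin n),
      ∑ S ∈ (univ : Finset (Fin n)).powersetCard s,
        (if AS S G then (1 - p) ^ (s.choose 2) * b ^ (W f S) else 0) ≤ x0 ^ 2 * ε := by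
    intro G
    by_cases hPR : PRB f (inn f G) θ m0
    · set K := Kn A l (inn f G) with hK
      have hKf : ∀ u v, K.Adj u v → f u = f v := fun u v h => hl u v h.2.1
      have hKH : ∀ u v, K.Adj u v → ¬ (inn f G).Adj u v := fun u v h => Kn.not_adj h
      have hPk : ∀ k, 1 ≤ k → Pk K D b k ≤ Qf p n m0 θ D k := by
        intro k hk
        unfold Pk Qf
        exact mul_le_mul_of_nonneg_right (card_Cliq_le hθ0 hθ1 hm0 hKf hKH hPR hk)
          (pow_nonneg hb0 _)
      have hPhi : ∀ k, 0 ≤ Phi (1 - θ) k D := fun k =>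
        le_trans zero_le_one (one_le_Phi hτ k (Nat.cast_nonneg _))
      have hQ0 : ∀ k, 0 ≤ Qf p n m0 θ D k := by
        intro k
        unfold Qf
        have := hPhi (k - 1)
        positivity
      have e1 : ∑ S ∈ (univ : Finset (Fin n)).powersetCard s,
          (if AS S G then (1 - p) ^ (s.choose 2) * b ^ (W f S) else 0)
          ≤ (1 - p) ^ (s.choose 2) *
            ∑ S ∈ (famV f K D x0 s).filter (Big f x0), b ^ (W f S) := by
        rw [← sum_filter, mul_sum]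
        refine sum_le_sum_of_subset_of_nonneg ?_ fun _ _ _ => by positivity
        intro S hS
        rw [mem_filter, mem_powersetCard] at hS
        rw [mem_filter, mem_famV]
        exact ⟨⟨hS.1.2, hS.2.1⟩, hS.2.2.1⟩
      refine e1.trans ?_
      have e2 := two_le (f := f) (K := K) (D := D) (x0 := x0) hf hb0 s
      refine (mul_le_mul_of_nonneg_left e2 (by positivity)).trans ?_
      rw [mul_sum]
      have e3 : ∀ q ∈ (Icc 1 x0 ×ˢ Icc 1 x0).filter (fun q => x0 < q.1 + q.2 ∧ q.1 + q.2 ≤ s),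
          (1 - p) ^ (s.choose 2) * (Pk K D b q.1 * Pk K D b q.2 *
            Nw f K D x0 b (s - (q.1 + q.2))) ≤ ε := by
        intro q hq
        rw [mem_filter, mem_product, mem_Icc, mem_Icc] at hq
        obtain ⟨⟨⟨a1, a2⟩, a3, a4⟩, a5, a6⟩ := hq
        refine le_trans ?_ (hε q.1 q.2 a1 a2 a3 a4 a5 a6)
        refine mul_le_mul_of_nonneg_left ?_ (by positivity)
        refine mul_le_mul ?_ ?_ (Nw_nonneg hb0 _) (mul_nonneg (hQ0 _) (hQ0 _))
        · exact mul_le_mul (hPk _ a1) (hPk _ a3) (Pk_nonneg hb0 _) (hQ0 _)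
        · exact Nw_le hf hb0 hZ (fun k hk hkx => (hPk k hk).trans (hQ k hk hkx)) _
      refine (sum_le_card_nsmul _ _ _ e3).trans ?_
      rw [nsmul_eq_mul]
      refine mul_le_mul_of_nonneg_right ?_ hε0
      have e4 : ((Icc 1 x0 ×ˢ Icc 1 x0).filter
          (fun q => x0 < q.1 + q.2 ∧ q.1 + q.2 ≤ s)).card ≤ x0 ^ 2 := by
        refine (card_filter_le _ _).trans ?_
        rw [card_product, Nat.card_Icc]
        simp [sq]
      exact_mod_cast e4
    · have e1 : ∑ S ∈ (univ : Finset (Fin n)).powersetCard s,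
          (if AS S G then (1 - p) ^ (s.choose 2) * b ^ (W f S) else 0) = 0 := by
        refine sum_eq_zero fun S _ => if_neg ?_
        intro h
        exact hPR h.2.2
      rw [e1]
      positivity
  have hmain := Prob_sum_le (p := p) h0 h1 ((univ : Finset (Fin n)).powersetCard s)
    (fun S => (1 - p) ^ (s.choose 2) * b ^ (W f S)) AS hsum
  refine le_trans ?_ hmain
  calc Prob p (fun G => Ev A l f D x0 s G ∧ PRB f (inn f G) θ m0)
      ≤ Prob p (fun G => ∃ S ∈ (univ : Finset (Fin n)).powersetCard s,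
        AS S G ∧ ∀ e ∈ cross f S, e ∉ G.edgeSet) := by
        refine Prob_mono h0 h1 fun G hG => ?_
        obtain ⟨⟨S, hc, hV, hB, hadj⟩, hPR⟩ := hG
        refine ⟨S, mem_powersetCard.2 ⟨subset_univ _, hc⟩, ⟨?_, hB, hPR⟩, ?_⟩
        · rw [← Kn_inn A hl G]
          exact hV
        · intro e he
          rw [mem_cross] at he
          obtain ⟨u, v, hu, hv, huv, rfl⟩ := he
          rw [SimpleGraph.mem_edgeSet]
          exact hadj u hu v hv huv
    _ ≤ ∑ S ∈ (univ : Finset (Fin n)).powersetCard s,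
        Prob p (fun G => AS S G ∧ ∀ e ∈ cross f S, e ∉ G.edgeSet) := Prob_exists h0 h1 _ _
    _ ≤ _ := by
        refine sum_le_sum fun S hS => ?_
        rw [Prob_and_no_edges (AS S) (cross f S) (hfree S)]
        refine mul_le_mul_of_nonneg_right ?_ (Prob_nonneg h0 h1 _)
        have hc := (mem_powersetCard.1 hS).2
        have h2 := choose_le_cross hf S
        rw [hc] at h2
        have h3 : (1 - p) ^ ((cross f S).card + W f S) ≤ (1 - p) ^ (s.choose 2) :=
          pow_le_pow_of_le_one hq0.le hq1 h2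
        have h4 : (1 - p) ^ (W f S) * b ^ (W f S) = 1 := by
          rw [← mul_pow, hb, mul_inv_cancel₀ hq0.ne', one_pow]
        calc (1 - p) ^ (cross f S).card
            = (1 - p) ^ ((cross f S).card + W f S) * b ^ (W f S) := by
              rw [pow_add, mul_assoc, h4, mul_one]
          _ ≤ _ := mul_le_mul_of_nonneg_right h3 (pow_nonneg hb0 _)

end Pool.Agent.SB81
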