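import Pool.Agent.SB81.Order
import Pool.Agent.SB81.Union
import Pool.Agent.H72.Karp.Alpha

/-!
If no set of `s` vertices becomes large at any level, then the colouring has many colours.
-/

set_option autoImplicit false

namespace Pool.Agent.SB81

open Finset Pool.Agent.H72.Karp Pool.Agent.H85.Online

variable {n : ℕ} {Q : Type}

theorem card_bad_le (K : SimpleGraph (Fin n)) (D : ℕ) :
    (univ.filter fun v => D < (nbh K v).card).card * D ≤ 2 * K.edgeSet.ncard := by
  classical
  have h1 := K.sum_degrees_eq_twice_card_edges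
  have h2 : K.edgeFinset.card = K.edgeSet.ncard := by
    rw [← SimpleGraph.coe_edgeFinset, Set.ncard_coe_finset]
  rw [← h2, ← h1]
  have h3 : ∀ v, K.degree v = (nbh K v).card := by
    intro v
    unfold SimpleGraph.degree
    congr 1
    ext u
    rw [SimpleGraph.mem_neighborFinset, mem_nbh]
  calc (univ.filter fun v => D < (nbh K v).card).card * D
      = ∑ v ∈ univ.filter fun v => D < (nbh K v).card, D := by
        rw [sum_const, smul_eq_mul]
    _ ≤ ∑ v ∈ univ.filter fun v => D < (nbh K v).card, K.degree v := by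
        refine sum_le_sum fun v hv => ?_
        rw [h3]
        exact (mem_filter.1 hv).2.le
    _ ≤ ∑ v, K.degree v := sum_le_sum_of_subset (filter_subset _ _)

theorem part_blk_succ (S : Finset (Fin n)) (k j : ℕ) :
    part (blk (k + 1)) S j ⊆ part (blk k) S (2 * j) ∪ part (blk k) S (2 * j + 1) := by
  intro u hu
  rw [mem_part, blk_succ] at hu
  rw [mem_union, mem_part, mem_part]
  rcases Nat.even_or_odd' (blk k u) with ⟨m, hm | hm⟩
  · left
    refine ⟨hu.1, ?_⟩
    omega
  · right
    refine ⟨hu.1, ?_⟩
    omega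

/-- A set with more than `x0` elements first becomes large at some level. -/
theorem exists_level {K x0 : ℕ} (hK : n ≤ 2 ^ K) (hx0 : 1 ≤ x0) {S : Finset (Fin n)}
    (hS : x0 < S.card) : ∃ k < K, (∀ j, (part (blk k) S j).card ≤ x0) ∧ Big (blk k) x0 S := by
  classical
  have hex : ∃ k, ∃ j, x0 < (part (blk k) S j).card := by
    refine ⟨K, 0, ?_⟩
    have : part (blk K) S 0 = S := by
      ext u
      rw [mem_part]
      exact ⟨fun h => h.1, fun h => ⟨h, blk_eq_zero hK u⟩⟩
    rw [this]
    exact hS
  set k1 := Nat.find hex with hk1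
  obtain ⟨j, hj⟩ := Nat.find_spec hex
  have hmin := fun k => Nat.find_min (m := k) hex
  have hk1K : k1 ≤ K := Nat.find_min' hex (by
    refine ⟨0, ?_⟩
    have : part (blk K) S 0 = S := by
      ext u
      rw [mem_part]
      exact ⟨fun h => h.1, fun h => ⟨h, blk_eq_zero hK u⟩⟩
    rw [this]
    exact hS)
  have hk1pos : k1 ≠ 0 := by
    intro h0
    rw [← hk1, h0] at hj
    have : (part (blk 0) S j).card ≤ 1 := by
      rw [card_le_one]
      intro a ha b hb
      rw [mem_part, blk_zero] at ha hb
      exact Fin.ext (ha.2.trans hb.2.symm)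
    omega
  obtain ⟨k, hk⟩ := Nat.exists_eq_succ_of_ne_zero hk1pos
  refine ⟨k, by omega, ?_, ?_⟩
  · intro j
    by_contra hcon
    exact hmin k (by omega) ⟨j, not_le.1 hcon⟩
  · have hle : ∀ j, (part (blk k) S j).card ≤ x0 := by
      intro j
      by_contra hcon
      exact hmin k (by omega) ⟨j, not_le.1 hcon⟩
    rw [← hk1, hk] at hj
    have h1 := (card_le_card (part_blk_succ S k j)).trans (card_union_le _ _)
    have h2 := hle (2 * j)
    have h3 := hle (2 * j + 1)
    have hj1 : 2 * j < n := by
      have : 0 < (part (blk k) S (2 * j)).card := by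
        have hj' : x0 < (part (blk (k + 1)) S j).card := hj
        omega
      obtain ⟨u, hu⟩ := card_pos.1 this
      rw [mem_part] at hu
      rw [← hu.2]
      exact blk_lt k u
    have hj2 : 2 * j + 1 < n := by
      have : 0 < (part (blk k) S (2 * j + 1)).card := by
        have hj' : x0 < (part (blk (k + 1)) S j).card := hj
        omega
      obtain ⟨u, hu⟩ := card_pos.1 this
      rw [mem_part] at hu
      rw [← hu.2]
      exact blk_lt k u
    refine ⟨2 * j, 2 * j + 1, hj1, hj2, by omega, ?_⟩
    have hj' : x0 < (part (blk (k + 1)) S j).card := hj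
    omega

theorem colours_ge {A : PassAlg n Q} {K : ℕ} (hK : n ≤ 2 ^ K) (hA : A.AlwaysProper (pre n K))
    {G : SimpleGraph (Fin n)} {D x0 s r b0 : ℕ} (hx0 : 1 ≤ x0) (hs : x0 < s)
    (h1 : ∀ k < K, ¬ Ev A (pre n k) (blk k) D x0 s G)
    (h2 : ∀ k < K, (univ.filter fun v => D < (nbh (Kn A (pre n k) G) v).card).card ≤ b0)
    (h3 : ∀ I : Finset (Fin n), Indep G I → I.card ≤ r) :
    n ≤ A.numColours (pre n K) G * s + K * b0 * r := by
  classical
  set c := A.colour (A.run (pre n K) G) with hc
  set C := univ.image c with hC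
  have hproper : ∀ u v, c u = c v → ¬ G.Adj u v := fun u v h hadj => hA G u v hadj h
  set cls : ℕ → Finset (Fin n) := fun i => univ.filter fun v => c v = i with hcls
  set bad : Finset (Fin n) := (range K).biUnion fun k =>
    univ.filter fun v => D < (nbh (Kn A (pre n k) G) v).card with hbad
  have hbadc : bad.card ≤ K * b0 := by
    refine card_biUnion_le.trans ?_
    calc ∑ k ∈ range K, (univ.filter fun v => D < (nbh (Kn A (pre n k) G) v).card).card
        ≤ ∑ k ∈ range K, b0 := sum_le_sum fun k hk => h2 k (mem_range.1 hk)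
      _ = K * b0 := by rw [sum_const, card_range, smul_eq_mul]
  have hindep : ∀ i, Indep G (cls i) := by
    intro i u hu v hv
    rw [mem_filter] at hu hv
    exact hproper u v (hu.2.trans hv.2.symm)
  have hkey : ∀ i, s ≤ (cls i).card → ∃ v ∈ bad, c v = i := by
    intro i hi
    by_contra hcon
    push Not at hcon
    obtain ⟨S, hS, hSc⟩ := exists_subset_card_eq hi
    have hcol : ∀ u ∈ S, c u = i := fun u hu => (mem_filter.1 (hS hu)).2
    obtain ⟨k, hk, hpart, hbig⟩ := exists_level hK hx0 (S := S) (by omega)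
    refine h1 k hk ⟨S, hSc, ⟨?_, ?_, hpart⟩, hbig, ?_⟩
    · intro u hu v hv huv hb
      obtain ⟨l', hl'⟩ := pre_split (n := n) hk.le
      refine kn_of_colour (l' := l') ?_ ?_ G huv ?_ ?_
      · rw [← hl']
        exact nodup_pre K
      · rw [← hl']
        exact hA
      · rw [mem_pre, sameB_mk]
        exact ⟨fun h => huv (Sym2.mk_isDiag_iff.1 h), hb⟩
      · rw [← hl']
        exact (hcol u hu).trans (hcol v hv).symm
    · intro v hv
      by_contra hd
      refine hcon v ?_ (hcol v hv)
      rw [hbad, mem_biUnion]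
      exact ⟨k, mem_range.2 hk, mem_filter.2 ⟨mem_univ _, not_le.1 hd⟩⟩
    · intro u hu v hv _
      exact hproper u v ((hcol u hu).trans (hcol v hv).symm)
  have hn : n = ∑ i ∈ C, (cls i).card := by
    have h := card_eq_sum_card_fiberwise (s := (univ : Finset (Fin n))) (t := C) (f := c)
      (fun v _ => mem_image_of_mem _ (mem_univ v))
    rw [card_univ, Fintype.card_fin] at h
    exact h
  have hlarge : (C.filter fun i => s ≤ (cls i).card).card ≤ K * b0 := by
    refine le_trans ?_ hbadc
    refine le_trans (card_le_card (t := bad.image c) ?_) card_image_le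
    intro i hi
    obtain ⟨v, hv, hvi⟩ := hkey i (mem_filter.1 hi).2
    exact mem_image.2 ⟨v, hv, hvi⟩
  have h4 : ∑ i ∈ C, (cls i).card ≤ C.card * s + K * b0 * r := by
    rw [← sum_filter_add_sum_filter_not C (fun i => s ≤ (cls i).card), add_comm]
    refine add_le_add ?_ ?_
    · calc ∑ i ∈ C.filter fun i => ¬ s ≤ (cls i).card, (cls i).card
          ≤ ∑ i ∈ C.filter fun i => ¬ s ≤ (cls i).card, s :=
            sum_le_sum fun i hi => (not_le.1 (mem_filter.1 hi).2).le
        _ = (C.filter fun i => ¬ s ≤ (cls i).card).card * s := by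
            rw [sum_const, smul_eq_mul]
        _ ≤ C.card * s := Nat.mul_le_mul_right _ (card_filter_le _ _)
    · calc ∑ i ∈ C.filter fun i => s ≤ (cls i).card, (cls i).card
          ≤ ∑ i ∈ C.filter fun i => s ≤ (cls i).card, r :=
            sum_le_sum fun i _ => h3 _ (hindep i)
        _ = (C.filter fun i => s ≤ (cls i).card).card * r := by
            rw [sum_const, smul_eq_mul]
        _ ≤ K * b0 * r := Nat.mul_le_mul_right _ hlarge
  calc n = ∑ i ∈ C, (cls i).card := hn
    _ ≤ _ := h4

end Pool.Agent.SB81
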