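import Pool.Agent.H72.Karp.Defs

/-!
A count of the independent sets of a graph in which all large sets of vertices have a vertex of
large degree (after Kleitman and Winston).
-/

set_option autoImplicit false

namespace Pool.Agent.SB81

open Finset Pool.Agent.H72.Karp

variable {n : ℕ}

/-- the function which bounds the number of independent `k`-sets in a set of `s` vertices -/
noncomputable def Phi (τ : ℝ) (k : ℕ) (s : ℝ) : ℝ :=
  ∑ e ∈ range (k + 1), s ^ e * τ ^ (e.choose 2)

theorem one_le_Phi {τ : ℝ} (hτ : 0 ≤ τ) (k : ℕ) {s : ℝ} (hs : 0 ≤ s) : 1 ≤ Phi τ k s := by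
  unfold Phi
  have h : (1 : ℝ) = s ^ 0 * τ ^ (Nat.choose 0 2) := by simp
  have h0 : 0 ∈ range (k + 1) := mem_range.2 (Nat.succ_pos k)
  rw [h]
  exact single_le_sum (f := fun e => s ^ e * τ ^ (e.choose 2))
    (fun e _ => by positivity) h0

theorem Phi_mono {τ : ℝ} (hτ : 0 ≤ τ) (k : ℕ) {s t : ℝ} (hs : 0 ≤ s) (hst : s ≤ t) :
    Phi τ k s ≤ Phi τ k t := by
  unfold Phi
  refine sum_le_sum fun e _ => mul_le_mul_of_nonneg_right (pow_le_pow_left₀ hs hst e)
    (by positivity)

theorem Phi_step {τ : ℝ} (hτ : 0 ≤ τ) (k : ℕ) {s : ℝ} (hs : 1 ≤ s) :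
    Phi τ (k + 1) (s - 1) + Phi τ k (τ * s) ≤ Phi τ (k + 1) s := by
  unfold Phi
  rw [sum_range_succ' _ (k + 1), sum_range_succ' _ (k + 1)]
  have h : ∑ e ∈ range (k + 1), (s - 1) ^ (e + 1) * τ ^ ((e + 1).choose 2)
      + ∑ e ∈ range (k + 1), (τ * s) ^ e * τ ^ (e.choose 2)
      ≤ ∑ e ∈ range (k + 1), s ^ (e + 1) * τ ^ ((e + 1).choose 2) := by
    rw [← sum_add_distrib]
    refine sum_le_sum fun e _ => ?_
    have h1 : (s - 1) ^ (e + 1) ≤ (s - 1) * s ^ e := by
      rw [pow_succ, mul_comm]
      exact mul_le_mul_of_nonneg_left (pow_le_pow_left₀ (by linarith) (by linarith) e)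
        (by linarith)
    have h2 : (τ * s) ^ e * τ ^ (e.choose 2) = s ^ e * τ ^ ((e + 1).choose 2) := by
      rw [Nat.choose_succ_succ' e 1, Nat.choose_one_right, mul_pow, pow_add]
      ring
    rw [h2]
    have h3 : 0 ≤ τ ^ ((e + 1).choose 2) := by positivity
    have h4 : (s - 1) ^ (e + 1) * τ ^ ((e + 1).choose 2)
        ≤ (s - 1) * s ^ e * τ ^ ((e + 1).choose 2) := mul_le_mul_of_nonneg_right h1 h3
    calc (s - 1) ^ (e + 1) * τ ^ ((e + 1).choose 2) + s ^ e * τ ^ ((e + 1).choose 2)
        ≤ (s - 1) * s ^ e * τ ^ ((e + 1).choose 2) + s ^ e * τ ^ ((e + 1).choose 2) := by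
          linarith
      _ = s ^ (e + 1) * τ ^ ((e + 1).choose 2) := by ring
  have h5 : (s - 1) ^ 0 * τ ^ (Nat.choose 0 2) = s ^ 0 * τ ^ (Nat.choose 0 2) := by simp
  linarith

open Classical in
/-- the independent `k`-sets in `A` -/
noncomputable def ind (G : SimpleGraph (Fin n)) (A : Finset (Fin n)) (k : ℕ) :
    Finset (Finset (Fin n)) :=
  (A.powersetCard k).filter fun I => Indep G I

theorem mem_ind {G : SimpleGraph (Fin n)} {A : Finset (Fin n)} {k : ℕ} {I : Finset (Fin n)} :
    I ∈ ind G A k ↔ I ⊆ A ∧ I.card = k ∧ Indep G I := by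
  classical
  unfold ind
  rw [mem_filter, mem_powersetCard, and_assoc]

theorem card_ind_le (G : SimpleGraph (Fin n)) {θ : ℝ} (hθ0 : 0 ≤ θ) (hθ1 : θ ≤ 1) {m0 : ℕ}
    (hm0 : 1 ≤ m0) (A : Finset (Fin n))
    (hG : ∀ B ⊆ A, m0 ≤ B.card → ∃ v ∈ B, θ * B.card ≤ degIn G B v) (k : ℕ) :
    ((ind G A k).card : ℝ) ≤ (m0 : ℝ) ^ k * Phi (1 - θ) k A.card := by
  classical
  have hτ : 0 ≤ 1 - θ := by linarith
  induction hc : A.card using Nat.strong_induction_on generalizing A k with
  | _ a ih =>
  subst hc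
  cases k with
  | zero =>
    have h1 : ind G A 0 ⊆ {∅} := by
      intro I hI
      rw [mem_ind] at hI
      rw [mem_singleton]
      exact card_eq_zero.1 hI.2.1
    have h2 := card_le_card h1
    rw [card_singleton] at h2
    have h3 := one_le_Phi hτ 0 (s := (A.card : ℝ)) (Nat.cast_nonneg _)
    rw [pow_zero, one_mul]
    exact le_trans (by exact_mod_cast h2) h3
  | succ k =>
    by_cases hA : m0 ≤ A.card
    · obtain ⟨v, hv, hd⟩ := hG A Subset.rfl hA
      have hApos : 1 ≤ A.card := card_pos.2 ⟨v, hv⟩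
      set A1 := A.erase v with hA1
      set A2 := A1.filter (fun u => ¬ G.Adj v u) with hA2
      have hA1c : A1.card = A.card - 1 := card_erase_of_mem hv
      have hA1s : A1 ⊆ A := erase_subset _ _
      have hA2s : A2 ⊆ A := (filter_subset _ _).trans hA1s
      have hA2c : (A2.card : ℝ) ≤ (1 - θ) * A.card := by
        have e1 : (A.filter fun u => G.Adj v u).card + A2.card ≤ A.card := by
          rw [← card_union_of_disjoint]
          · exact card_le_card (union_subset (filter_subset _ _) hA2s)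
          · rw [disjoint_left]
            intro u hu hu'
            exact (mem_filter.1 hu').2 (mem_filter.1 hu).2
        have e2 : ((A.filter fun u => G.Adj v u).card : ℝ) + A2.card ≤ A.card := by
          exact_mod_cast e1
        have e3 : degIn G A v = (A.filter fun u => G.Adj v u).card := by
          unfold degIn
          congr
        rw [e3] at hd
        linarith
      have hA2lt : A2.card < A.card := by
        have h9 : A2.card ≤ A1.card := card_le_card (filter_subset _ _)
        omega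
      have h1 := ih A1.card (by omega) A1 (fun B hB hB2 => hG B (hB.trans hA1s) hB2) (k + 1) rfl
      have h2 := ih A2.card hA2lt A2 (fun B hB hB2 => hG B (hB.trans hA2s) hB2) k rfl
      have h3 : (ind G A (k + 1)).card ≤ (ind G A1 (k + 1)).card + (ind G A2 k).card := by
        have hsub : ind G A (k + 1) ⊆ ind G A1 (k + 1) ∪ (ind G A2 k).image (insert v) := by
          intro I hI
          rw [mem_ind] at hI
          obtain ⟨hI1, hI2, hI3⟩ := hI
          rw [mem_union]
          by_cases hvI : v ∈ I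
          · right
            rw [mem_image]
            refine ⟨I.erase v, mem_ind.2 ⟨?_, ?_, ?_⟩, insert_erase hvI⟩
            · intro u hu
              rw [mem_erase] at hu
              refine mem_filter.2 ⟨mem_erase.2 ⟨hu.1, hI1 hu.2⟩, ?_⟩
              exact hI3 v hvI u hu.2
            · rw [card_erase_of_mem hvI, hI2]
              rfl
            · intro a ha b hb
              exact hI3 a (mem_of_mem_erase ha) b (mem_of_mem_erase hb)
          · left
            refine mem_ind.2 ⟨fun u hu => mem_erase.2 ⟨?_, hI1 hu⟩, hI2, hI3⟩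
            rintro rfl
            exact hvI hu
        refine (card_le_card hsub).trans ((card_union_le _ _).trans ?_)
        exact Nat.add_le_add_left card_image_le _
      have h4 : ((ind G A (k + 1)).card : ℝ) ≤ (ind G A1 (k + 1)).card + (ind G A2 k).card := by
        exact_mod_cast h3
      have hc1 : (A1.card : ℝ) = (A.card : ℝ) - 1 := by
        rw [hA1c, Nat.cast_sub hApos, Nat.cast_one]
      rw [hc1] at h1
      have hm0r : (1 : ℝ) ≤ m0 := by exact_mod_cast hm0
      have h5 : (m0 : ℝ) ^ k ≤ (m0 : ℝ) ^ (k + 1) := pow_le_pow_right₀ hm0r (Nat.le_succ k)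
      have h6 : Phi (1 - θ) k A2.card ≤ Phi (1 - θ) k ((1 - θ) * A.card) :=
        Phi_mono hτ k (Nat.cast_nonneg _) hA2c
      have h7 : 0 ≤ Phi (1 - θ) k ((1 - θ) * A.card) :=
        le_trans zero_le_one (one_le_Phi hτ k (by positivity))
      have h8 := Phi_step hτ k (s := (A.card : ℝ)) (by exact_mod_cast hApos)
      calc ((ind G A (k + 1)).card : ℝ) ≤ (ind G A1 (k + 1)).card + (ind G A2 k).card := h4
        _ ≤ (m0 : ℝ) ^ (k + 1) * Phi (1 - θ) (k + 1) ((A.card : ℝ) - 1)
            + (m0 : ℝ) ^ k * Phi (1 - θ) k A2.card := add_le_add h1 h2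
        _ ≤ (m0 : ℝ) ^ (k + 1) * Phi (1 - θ) (k + 1) ((A.card : ℝ) - 1)
            + (m0 : ℝ) ^ (k + 1) * Phi (1 - θ) k ((1 - θ) * A.card) := by
            refine add_le_add le_rfl ((mul_le_mul_of_nonneg_left h6 (by positivity)).trans ?_)
            exact mul_le_mul_of_nonneg_right h5 h7
        _ = (m0 : ℝ) ^ (k + 1) * (Phi (1 - θ) (k + 1) ((A.card : ℝ) - 1)
            + Phi (1 - θ) k ((1 - θ) * A.card)) := by ring
        _ ≤ _ := mul_le_mul_of_nonneg_left h8 (by positivity)
    · have h1 : (ind G A (k + 1)).card ≤ m0 ^ (k + 1) := by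
        calc (ind G A (k + 1)).card ≤ (A.powersetCard (k + 1)).card :=
              card_le_card (filter_subset _ _)
          _ = A.card.choose (k + 1) := card_powersetCard _ _
          _ ≤ A.card ^ (k + 1) := Nat.choose_le_pow _ _
          _ ≤ m0 ^ (k + 1) := Nat.pow_le_pow_left (by omega) _
      have h2 := one_le_Phi hτ (k + 1) (s := (A.card : ℝ)) (Nat.cast_nonneg _)
      calc ((ind G A (k + 1)).card : ℝ) ≤ (m0 : ℝ) ^ (k + 1) := by exact_mod_cast h1
        _ = (m0 : ℝ) ^ (k + 1) * 1 := (mul_one _).symm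
        _ ≤ _ := mul_le_mul_of_nonneg_left h2 (by positivity)

end Pool.Agent.SB81
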