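import Pool.Agent.SB81.Defs

/-!
The hierarchical order of the pairs: first the pairs in the blocks of length 2, then the other
pairs in the blocks of length 4, and so on.
-/

set_option autoImplicit false

namespace Pool.Agent.SB81

open Finset

variable {n : ℕ}

/-- the block of level `k` of a vertex -/
def blk (k : ℕ) (u : Fin n) : ℕ := u.val / 2 ^ k

theorem blk_lt (k : ℕ) (u : Fin n) : blk k u < n :=
  lt_of_le_of_lt (Nat.div_le_self _ _) u.isLt

theorem blk_zero (u : Fin n) : blk 0 u = u.val := by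
  unfold blk
  simp

theorem blk_succ (k : ℕ) (u : Fin n) : blk (k + 1) u = blk k u / 2 := by
  unfold blk
  rw [pow_succ, Nat.div_div_eq_div_mul]

theorem blk_eq_zero {k : ℕ} (h : n ≤ 2 ^ k) (u : Fin n) : blk k u = 0 :=
  Nat.div_eq_of_lt (lt_of_lt_of_le u.isLt h)

/-- both vertices of the pair are in the same block of level `k` -/
def SameB (k : ℕ) (e : Sym2 (Fin n)) : Prop := ∀ u ∈ e, ∀ v ∈ e, blk k u = blk k v

theorem sameB_mk {k : ℕ} {u v : Fin n} : SameB k s(u, v) ↔ blk k u = blk k v := by
  unfold SameB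
  constructor
  · intro h
    exact h u (Sym2.mem_mk_left u v) v (Sym2.mem_mk_right u v)
  · intro h x hx y hy
    rcases Sym2.mem_iff.1 hx with rfl | rfl <;> rcases Sym2.mem_iff.1 hy with rfl | rfl
    · rfl
    · exact h
    · exact h.symm
    · rfl

theorem SameB.succ {k : ℕ} {e : Sym2 (Fin n)} (h : SameB k e) : SameB (k + 1) e := by
  intro u hu v hv
  rw [blk_succ, blk_succ, h u hu v hv]

open Classical in
/-- the pairs which first come together at level `k + 1` -/
noncomputable def lv (n k : ℕ) : List (Sym2 (Fin n)) :=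
  ((univ : Finset (Sym2 (Fin n))).filter
    fun e => ¬ e.IsDiag ∧ SameB (k + 1) e ∧ ¬ SameB k e).toList

theorem mem_lv {k : ℕ} {e : Sym2 (Fin n)} :
    e ∈ lv n k ↔ ¬ e.IsDiag ∧ SameB (k + 1) e ∧ ¬ SameB k e := by
  classical
  unfold lv
  rw [mem_toList, mem_filter]
  simp

/-- the pairs of level at most `k`, in the hierarchical order -/
noncomputable def pre (n : ℕ) : ℕ → List (Sym2 (Fin n))
  | 0 => []
  | k + 1 => pre n k ++ lv n k

theorem mem_pre {k : ℕ} {e : Sym2 (Fin n)} : e ∈ pre n k ↔ ¬ e.IsDiag ∧ SameB k e := by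
  induction k with
  | zero =>
    unfold pre
    constructor
    · intro h
      exact absurd h List.not_mem_nil
    · rintro ⟨h1, h2⟩
      exfalso
      induction e using Sym2.ind with
      | _ x y =>
      rw [sameB_mk, blk_zero, blk_zero] at h2
      exact h1 (Sym2.mk_isDiag_iff.2 (Fin.ext h2))
  | succ k ih =>
    rw [pre, List.mem_append, ih, mem_lv]
    constructor
    · rintro (h | h)
      · exact ⟨h.1, h.2.succ⟩
      · exact ⟨h.1, h.2.1⟩
    · rintro ⟨h1, h2⟩
      by_cases h3 : SameB k e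
      · exact Or.inl ⟨h1, h3⟩
      · exact Or.inr ⟨h1, h2, h3⟩

theorem nodup_pre (k : ℕ) : (pre n k).Nodup := by
  induction k with
  | zero => exact List.nodup_nil
  | succ k ih =>
    rw [pre, List.nodup_append]
    refine ⟨ih, ?_, ?_⟩
    · unfold lv
      exact nodup_toList _
    · intro a ha b hb hab
      subst hab
      exact (mem_lv.1 hb).2.2 (mem_pre.1 ha).2

theorem isOrder_pre {K : ℕ} (h : n ≤ 2 ^ K) : IsOrder (pre n K) := by
  refine ⟨nodup_pre K, fun e => ?_⟩
  rw [mem_pre]
  constructor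
  · exact fun h => h.1
  · intro h1
    refine ⟨h1, fun u _ v _ => ?_⟩
    rw [blk_eq_zero h, blk_eq_zero h]

theorem pre_split {k K : ℕ} (h : k ≤ K) : ∃ l, pre n K = pre n k ++ l := by
  induction K, h using Nat.le_induction with
  | base => exact ⟨[], (List.append_nil _).symm⟩
  | succ K _ ih =>
    obtain ⟨l, hl⟩ := ih
    exact ⟨l ++ lv n K, by rw [pre, hl, List.append_assoc]⟩

end Pool.Agent.SB81
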