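import Pool.Agent.SB81.Count

/-!
The weighted number of valid sets with two large parts, and the number of cliques.
-/

set_option autoImplicit false

namespace Pool.Agent.SB81

open Finset Pool.Agent.H72.Karp

variable {n : ℕ} {f : Fin n → ℕ} {K : SimpleGraph (Fin n)} {D x0 : ℕ}

/-- two parts of `S` have together more than `x0` elements -/
def Big (f : Fin n → ℕ) (x0 : ℕ) (S : Finset (Fin n)) : Prop :=
  ∃ i j, i < n ∧ j < n ∧ i ≠ j ∧ x0 < (part f S i).card + (part f S j).card

open Classical in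
/-- the first one of two large parts -/
noncomputable def big1 (f : Fin n → ℕ) (x0 : ℕ) (S : Finset (Fin n)) : ℕ :=
  if h : Big f x0 S then h.choose else 0

open Classical in
/-- the second one of two large parts -/
noncomputable def big2 (f : Fin n → ℕ) (x0 : ℕ) (S : Finset (Fin n)) : ℕ :=
  if h : Big f x0 S then h.choose_spec.choose else 0

theorem big_spec {S : Finset (Fin n)} (h : Big f x0 S) : big1 f x0 S < n ∧ big2 f x0 S < n ∧
    big1 f x0 S ≠ big2 f x0 S ∧
    x0 < (part f S (big1 f x0 S)).card + (part f S (big2 f x0 S)).card := by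
  unfold big1 big2
  rw [dif_pos h, dif_pos h]
  exact h.choose_spec.choose_spec

/-- the rest of `S` -/
noncomputable def rest (f : Fin n → ℕ) (x0 : ℕ) (S : Finset (Fin n)) : Finset (Fin n) :=
  (S \ part f S (big1 f x0 S)) \ part f (S \ part f S (big1 f x0 S)) (big2 f x0 S)

theorem part_rest {S : Finset (Fin n)} (h : Big f x0 S) :
    part f (S \ part f S (big1 f x0 S)) (big2 f x0 S) = part f S (big2 f x0 S) := by
  rw [part_sdiff, if_neg (big_spec h).2.2.1.symm]

open Classical in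
/-- The weighted number of valid sets with two large parts. -/
theorem two_le (hx : ∀ u, f u < n) {b : ℝ} (hb : 0 ≤ b) (s : ℕ) :
    ∑ S ∈ (famV f K D x0 s).filter (Big f x0), b ^ (W f S)
      ≤ ∑ q ∈ (Icc 1 x0 ×ˢ Icc 1 x0).filter (fun q => x0 < q.1 + q.2 ∧ q.1 + q.2 ≤ s),
        Pk K D b q.1 * Pk K D b q.2 * Nw f K D x0 b (s - (q.1 + q.2)) := by
  have _ := hx
  have hc : ∀ S ∈ (famV f K D x0 s).filter (Big f x0),
      ((part f S (big1 f x0 S)).card, (part f S (big2 f x0 S)).card) ∈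
        (Icc 1 x0 ×ˢ Icc 1 x0).filter (fun q => x0 < q.1 + q.2 ∧ q.1 + q.2 ≤ s) := by
    intro S hS
    rw [mem_filter, mem_famV] at hS
    obtain ⟨⟨h1, h2⟩, h3⟩ := hS
    obtain ⟨hi, hj, hne, hlt⟩ := big_spec h3
    have e1 := h2.2.2 (big1 f x0 S)
    have e2 := h2.2.2 (big2 f x0 S)
    have e3 : (part f S (big1 f x0 S)).card + (part f S (big2 f x0 S)).card ≤ S.card := by
      rw [← card_union_of_disjoint]
      · exact card_le_card (union_subset (part_subset _ _ _) (part_subset _ _ _))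
      · rw [disjoint_left]
        intro u hu hu'
        exact hne ((mem_part.1 hu).2.symm.trans (mem_part.1 hu').2)
    rw [mem_filter, mem_product, mem_Icc, mem_Icc]
    omega
  rw [← sum_fiberwise_of_maps_to hc]
  refine sum_le_sum fun q hq => ?_
  obtain ⟨k1, k2⟩ := q
  rw [mem_filter, mem_product, mem_Icc, mem_Icc] at hq
  simp only at hq
  have hprod : Pk K D b k1 * Pk K D b k2 * Nw f K D x0 b (s - (k1 + k2))
      = ∑ r ∈ Cliq K D k1 ×ˢ (Cliq K D k2 ×ˢ famV f K D x0 (s - (k1 + k2))),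
        b ^ (k1.choose 2) * (b ^ (k2.choose 2) * b ^ (W f r.2.2)) := by
    rw [sum_product]
    simp only [sum_product]
    unfold Pk Nw
    simp only [← mul_sum]
    rw [sum_const, sum_const, nsmul_eq_mul, nsmul_eq_mul]
    ring
  simp only
  rw [hprod]
  refine sum_le_sum_inj _ _ (fun S => (part f S (big1 f x0 S), (part f S (big2 f x0 S),
    rest f x0 S))) _ _ ?_ ?_ ?_ ?_
  · intro S hS
    rw [mem_filter, mem_filter, mem_famV] at hS
    obtain ⟨⟨⟨h1, h2⟩, h3⟩, h4⟩ := hS
    have e1 := (Prod.ext_iff.1 h4).1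
    have e2 := (Prod.ext_iff.1 h4).2
    simp only at e1 e2
    rw [mem_product, mem_product]
    simp only
    refine ⟨?_, ?_, ?_⟩
    · rw [← e1]
      exact part_mem_Cliq h2 _
    · rw [← e2]
      exact part_mem_Cliq h2 _
    · rw [mem_famV]
      refine ⟨?_, ?_⟩
      · unfold rest
        rw [card_sdiff_of_subset (part_subset _ _ _), card_sdiff_of_subset (part_subset _ _ _),
          part_rest h3, e1, e2, h1]
        omega
      · exact Val_sdiff (Val_sdiff h2 _) _
  · intro S hS S' hS' he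
    rw [mem_filter, mem_filter, mem_famV] at hS hS'
    have e1 := (Prod.ext_iff.1 he).1
    have e2 := (Prod.ext_iff.1 (Prod.ext_iff.1 he).2).1
    have e3 := (Prod.ext_iff.1 (Prod.ext_iff.1 he).2).2
    simp only at e1 e2 e3
    have key : ∀ T : Finset (Fin n), Big f x0 T →
        T = (rest f x0 T ∪ part f T (big2 f x0 T)) ∪ part f T (big1 f x0 T) := by
      intro T hT
      unfold rest
      rw [← part_rest hT, sdiff_union_of_subset (part_subset _ _ _),
        sdiff_union_of_subset (part_subset _ _ _)]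
    calc S = (rest f x0 S ∪ part f S (big2 f x0 S)) ∪ part f S (big1 f x0 S) := key S hS.1.2
      _ = (rest f x0 S' ∪ part f S' (big2 f x0 S')) ∪ part f S' (big1 f x0 S') := by
        rw [e1, e2, e3]
      _ = S' := (key S' hS'.1.2).symm
  · intro S hS
    rw [mem_filter, mem_filter, mem_famV] at hS
    obtain ⟨⟨⟨h1, h2⟩, h3⟩, h4⟩ := hS
    have e1 := (Prod.ext_iff.1 h4).1
    have e2 := (Prod.ext_iff.1 h4).2
    simp only at e1 e2
    obtain ⟨hi, hj, hne, hlt⟩ := big_spec h3
    have hW : W f S = W f (rest f x0 S) + k2.choose 2 + k1.choose 2 := by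
      rw [W_sdiff S hi, W_sdiff (S \ part f S (big1 f x0 S)) hj, part_rest h3, e1, e2]
      unfold rest
      rw [part_rest h3]
    simp only
    rw [hW, pow_add, pow_add]
    apply le_of_eq
    ring
  · intro r _
    positivity

/-- The number of cliques, by the count of independent sets. -/
theorem card_Cliq_le {H : SimpleGraph (Fin n)} {θ : ℝ} (hθ0 : 0 ≤ θ) (hθ1 : θ ≤ 1) {m0 : ℕ}
    (hm0 : 1 ≤ m0) (hKf : ∀ u v, K.Adj u v → f u = f v) (hKH : ∀ u v, K.Adj u v → ¬ H.Adj u v)
    (hH : ∀ B : Finset (Fin n), (∀ u ∈ B, ∀ v ∈ B, f u = f v) → m0 ≤ B.card →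
      ∃ v ∈ B, θ * B.card ≤ degIn H B v) {k : ℕ} (hk : 1 ≤ k) :
    ((Cliq K D k).card : ℝ) ≤ n * ((m0 : ℝ) ^ (k - 1) * Phi (1 - θ) (k - 1) D) := by
  classical
  have hτ : 0 ≤ 1 - θ := by linarith
  set good : Finset (Fin n) := univ.filter (fun v => (nbh K v).card ≤ D) with hgood
  have h1 : Cliq K D k ⊆ good.biUnion fun v => (ind H (nbh K v) (k - 1)).image (insert v) := by
    intro C hC
    rw [mem_Cliq] at hC
    obtain ⟨hc, hcl, hd⟩ := hC
    have hne : C.Nonempty := by
      rw [← card_pos]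
      omega
    obtain ⟨v, hv⟩ := hne
    rw [mem_biUnion]
    refine ⟨v, mem_filter.2 ⟨mem_univ _, hd v hv⟩, mem_image.2 ⟨C.erase v, ?_, insert_erase hv⟩⟩
    rw [mem_ind]
    refine ⟨?_, ?_, ?_⟩
    · intro u hu
      rw [mem_erase] at hu
      exact mem_nbh.2 (hcl v hv u hu.2 hu.1.symm)
    · rw [card_erase_of_mem hv, hc]
    · intro a ha b hb hab
      exact hKH a b (hcl a (mem_of_mem_erase ha) b (mem_of_mem_erase hb) hab.ne) hab
  have h2 : ∀ v ∈ good, ((ind H (nbh K v) (k - 1)).card : ℝ)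
      ≤ (m0 : ℝ) ^ (k - 1) * Phi (1 - θ) (k - 1) D := by
    intro v hv
    refine (card_ind_le H hθ0 hθ1 hm0 (nbh K v) ?_ (k - 1)).trans ?_
    · intro B hB hBc
      refine hH B ?_ hBc
      intro u hu w hw
      rw [← hKf v u (mem_nbh.1 (hB hu)), ← hKf v w (mem_nbh.1 (hB hw))]
    · refine mul_le_mul_of_nonneg_left (Phi_mono hτ _ (Nat.cast_nonneg _) ?_) (by positivity)
      exact_mod_cast (mem_filter.1 hv).2
  have h3 : 0 ≤ (m0 : ℝ) ^ (k - 1) * Phi (1 - θ) (k - 1) D :=
    mul_nonneg (by positivity) (le_trans zero_le_one (one_le_Phi hτ _ (Nat.cast_nonneg _)))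
  calc ((Cliq K D k).card : ℝ)
      ≤ ((good.biUnion fun v => (ind H (nbh K v) (k - 1)).image (insert v)).card : ℝ) := by
        exact_mod_cast card_le_card h1
    _ ≤ ((∑ v ∈ good, ((ind H (nbh K v) (k - 1)).image (insert v)).card : ℕ) : ℝ) := by
        exact_mod_cast card_biUnion_le
    _ ≤ ∑ v ∈ good, (m0 : ℝ) ^ (k - 1) * Phi (1 - θ) (k - 1) D := by
        push_cast
        refine sum_le_sum fun v hv => le_trans ?_ (h2 v hv)
        exact_mod_cast card_image_le
    _ ≤ ∑ v ∈ (univ : Finset (Fin n)), (m0 : ℝ) ^ (k - 1) * Phi (1 - θ) (k - 1) D :=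
        sum_le_sum_of_subset_of_nonneg (subset_univ _) fun _ _ _ => h3
    _ = _ := by rw [sum_const, card_univ, Fintype.card_fin, nsmul_eq_mul]

end Pool.Agent.SB81
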